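import Mathlib
import Pool.Agent.H82.SN.D2

/-!
# MP_daf980_lc: SUM NUMBER is NP-hard

Every language in NP reduces in polynomial time (many-one) to the problem: given a graph `G` by its
vertex list and its edge list, and a number `k` in binary, is `σ(G) ≤ k`?
-/

set_option autoImplicit false

namespace Pool.Agent.Results.MP_daf980_lc.SumNumberHard

open Turing Computability

/-! ### The sum number -/

/-- `ℓ` is a sum labelling of `G`: it is injective with positive integer values, and two distinct
vertices are adjacent if and only if the sum of their labels is a label. -/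
def IsSumLabelling {V : Type} (G : SimpleGraph V) (ℓ : V → ℤ) : Prop :=
  Function.Injective ℓ ∧ (∀ v, 0 < ℓ v) ∧
    ∀ u v, u ≠ v → (G.Adj u v ↔ ∃ w, ℓ u + ℓ v = ℓ w)

/-- `G` is a sum graph. -/
def IsSumGraph {V : Type} (G : SimpleGraph V) : Prop := ∃ ℓ : V → ℤ, IsSumLabelling G ℓ

/-- The sum number `σ(G)`: the least `s` such that the disjoint union of `G` with `s` isolated
vertices is a sum graph. -/
noncomputable def sumNumber {V : Type} (G : SimpleGraph V) : ℕ :=
  sInf {s | IsSumGraph (G ⊕g (⊥ : SimpleGraph (Fin s)))}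

/-! ### Instances -/

/-- An instance: vertex list, edge list, bound `k`. -/
abbrev Instance : Type := List ℕ × List (ℕ × ℕ) × ℕ

/-- The vertex list has no repetitions, and each edge joins two distinct listed vertices. -/
def WellFormed (I : Instance) : Prop :=
  I.1.Nodup ∧ ∀ e ∈ I.2.1, e.1 ∈ I.1 ∧ e.2 ∈ I.1 ∧ e.1 ≠ e.2

/-- The graph with the given vertex list and edge list. -/
def graphOf (I : Instance) : SimpleGraph {v : ℕ // v ∈ I.1} where
  Adj u v := u ≠ v ∧ ((u.1, v.1) ∈ I.2.1 ∨ (v.1, u.1) ∈ I.2.1)
  symm := ⟨fun _ _ h => ⟨h.1.symm, h.2.symm⟩⟩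
  loopless := ⟨fun _ h => h.1 rfl⟩

/-- Code of a bit: `1` is written `100` and `0` is written `0`. -/
def bitCode (b : Bool) : List Bool := if b then [true, false, false] else [false]

/-- Code of a list: `1` in front of each entry, and `0` at the end. -/
def listCode {α : Type} (f : α → List Bool) (l : List α) : List Bool :=
  (l.flatMap fun x => true :: f x) ++ [false]

/-- Code of a natural number: the list of its binary digits. -/
def natCode (n : ℕ) : List Bool := listCode bitCode n.bits

/-- Code of a pair of natural numbers. -/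
def pairCode (e : ℕ × ℕ) : List Bool := true :: (natCode e.1 ++ natCode e.2)

/-- Code of an instance: vertex list, edge list and bound, all numbers in binary. -/
def instCode (I : Instance) : List Bool :=
  true :: (listCode natCode I.1 ++ true :: (listCode pairCode I.2.1 ++ natCode I.2.2))

/-- The language SUM NUMBER: the codes of the well-formed instances `(G, k)` with `σ(G) ≤ k`. -/
def SUMNUMBER : Set (List Bool) :=
  {s | ∃ I : Instance, WellFormed I ∧ sumNumber (graphOf I) ≤ I.2.2 ∧ s = instCode I}

/-! ### NP-hardness -/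

/-- The pair `(x, u)` of words is written as the word `x`, a separator, the word `u`. -/
def pairEnc (p : List Bool × List Bool) : List (Option Bool) :=
  p.1.map some ++ none :: p.2.map some

/-- A language is in NP if it has a polynomial-time verifier with certificates of polynomially
bounded length. -/
def InNP (L : Set (List Bool)) : Prop :=
  ∃ (p : Polynomial ℕ) (V : List Bool × List Bool → Bool),
    Nonempty (TM2ComputableInPolyTime pairEnc encodeBool V) ∧
    ∀ x, x ∈ L ↔ ∃ u : List Bool, u.length ≤ p.eval x.length ∧ V (x, u) = true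

/-- Polynomial-time many-one reducibility of languages. -/
def PolyReducible (L L' : Set (List Bool)) : Prop :=
  ∃ f : List Bool → List Bool,
    Nonempty (TM2ComputableInPolyTime (id : List Bool → List Bool)
      (id : List Bool → List Bool) f) ∧ ∀ x, x ∈ L ↔ f x ∈ L'

/-- NP-hardness under polynomial-time many-one reductions. -/
def NPHard (L' : Set (List Bool)) : Prop := ∀ L, InNP L → PolyReducible L L'

theorem sumNumber_eq {V : Type} (G : SimpleGraph V) :
    sumNumber G = Pool.Agent.H82.SN.sumNumber G := by
  unfold sumNumber Pool.Agent.H82.SN.sumNumber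
  congr 1
  ext s
  constructor
  · rintro ⟨ℓ, h⟩
    exact ⟨ℓ, ⟨h.1, h.2.1, h.2.2⟩⟩
  · rintro ⟨ℓ, h⟩
    exact ⟨ℓ, h.inj, h.pos, h.adj_iff⟩

/-- The minimum in the definition of the sum number exists. -/
theorem sumNumber_spec {V : Type} [Fintype V] (G : SimpleGraph V) :
    IsSumGraph (G ⊕g (⊥ : SimpleGraph (Fin (sumNumber G)))) := by
  have hne : {s | IsSumGraph (G ⊕g (⊥ : SimpleGraph (Fin s)))}.Nonempty := by
    obtain ⟨a, ha⟩ := Pool.Agent.H82.SN.exists_valid G
    obtain ⟨ℓ, h⟩ := Pool.Agent.H82.SN.isSumGraph_of_valid ha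
    exact ⟨_, ℓ, h.inj, h.pos, h.adj_iff⟩
  exact Nat.sInf_mem hne

theorem instCode_eq : instCode = Pool.Agent.H82.SN.instCode := rfl

/-- **SUM NUMBER is NP-hard** under polynomial-time many-one reductions. -/
theorem result : NPHard SUMNUMBER := by
  intro L hL
  obtain ⟨f, ⟨hf⟩, hwf, hfx⟩ := Pool.Agent.H82.SN.sumNumber_npHardOn L hL
  refine ⟨fun x => instCode (f x),
    ⟨{ tm := hf.tm, inputAlphabet := hf.inputAlphabet, outputAlphabet := hf.outputAlphabet,
       time := hf.time, outputsFun := hf.outputsFun }⟩, fun x => ?_⟩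
  have h1 : x ∈ L ↔ sumNumber (graphOf (f x)) ≤ (f x).2.2 := by
    rw [hfx x, sumNumber_eq]
    rfl
  rw [h1]
  constructor
  · intro h
    exact ⟨f x, hwf x, h, rfl⟩
  · rintro ⟨I, -, hle, he⟩
    have := Pool.Agent.H82.SN.instCode_injective he
    rw [this]
    exact hle

end Pool.Agent.Results.MP_daf980_lc.SumNumberHard
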